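import Mathlib

namespace Pool.Agent.Results.MP_34deb4_co.Q1
open Matrix

/-- The tadpole graph `T_{6,4}`: the path `0-1-2-3`, the bridge `3-4` and the 6-cycle
`4-5-6-7-8-9-4`. -/
def T64 : SimpleGraph (Fin 10) :=
  SimpleGraph.fromRel fun i j => (i : ℕ) + 1 = j ∨ (i = 4 ∧ j = 9)

/-- `A` belongs to `S(G)`. -/
def InS {n : ℕ} (G : SimpleGraph (Fin n)) (A : Matrix (Fin n) (Fin n) ℝ) : Prop :=
  A.IsSymm ∧ ∀ i j, i ≠ j → (A i j ≠ 0 ↔ G.Adj i j)

/-- The strong spectral property. -/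
def SSP {n : ℕ} (A : Matrix (Fin n) (Fin n) ℝ) : Prop :=
  ∀ X : Matrix (Fin n) (Fin n) ℝ, X.IsSymm → A ⊙ X = 0 → 1 ⊙ X = 0 → A * X - X * A = 0 → X = 0

instance : DecidableRel T64.Adj := fun i j => by unfold T64; infer_instance

lemma allpow {n : ℕ} (A X : Matrix (Fin (n + 1)) (Fin (n + 1)) ℝ)
    (h : ∀ k ≤ n, (X * A ^ k) 0 0 = 0) (k : ℕ) : (X * A ^ k) 0 0 = 0 := by
  rw [A.pow_eq_aeval_mod_charpoly k, Polynomial.aeval_eq_sum_range' (n := n + 1), Finset.mul_sum,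
    Matrix.sum_apply]
  · exact Finset.sum_eq_zero fun i hi => by
      rw [Matrix.mul_smul, Matrix.smul_apply, h i (by simp at hi; omega), smul_zero]
  · have := Polynomial.natDegree_modByMonic_lt (Polynomial.X ^ k) A.charpoly_monic fun c => by
      simpa [c] using A.charpoly_natDegree_eq_dim
    simpa using this

lemma ssp : ∀ A, InS T64 A → SSP A := by
  rintro A ⟨hs, hA⟩ X xs h1 h2 h3
  have z : ∀ i j, i ≠ j → ¬ T64.Adj i j → A i j = 0 := fun i j h h' =>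
    by_contra fun c => h' ((hA i j h).1 c)
  have nz : ∀ i j, T64.Adj i j → A i j ≠ 0 := fun i j h => (hA i j h.ne).2 h
  have xd : ∀ i, X i i = 0 := fun i => by simpa using congrFun (congrFun h2 i) i
  have xe : ∀ i j, T64.Adj i j → X i j = 0 := fun i j h => by
    simpa [nz i j h] using congrFun (congrFun h1 i) j
  have sA : ∀ i j, A j i = A i j := fun i j => hs.apply i j
  have sX : ∀ i j, X j i = X i j := fun i j => xs.apply i j
  have comm : A * X = X * A := sub_eq_zero.1 h3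
  obtain ⟨a0, a1, a2, a3, a4, a5, a6, a7, a8, b, d, n0, n1, n2, n3, n4, n5, n6, n7, n8, nb, mv⟩ :
      ∃ (a0 a1 a2 a3 a4 a5 a6 a7 a8 b : ℝ) (d : Fin 10 → ℝ), a0 ≠ 0 ∧ a1 ≠ 0 ∧ a2 ≠ 0 ∧ a3 ≠ 0 ∧
      a4 ≠ 0 ∧ a5 ≠ 0 ∧ a6 ≠ 0 ∧ a7 ≠ 0 ∧ a8 ≠ 0 ∧ b ≠ 0 ∧ ∀ v : Fin 10 → ℝ, A *ᵥ v =
      ![d 0 * v 0 + a0 * v 1, a0 * v 0 + d 1 * v 1 + a1 * v 2, a1 * v 1 + d 2 * v 2 + a2 * v 3,
        a2 * v 2 + d 3 * v 3 + a3 * v 4, a3 * v 3 + d 4 * v 4 + a4 * v 5 + b * v 9,
        a4 * v 4 + d 5 * v 5 + a5 * v 6, a5 * v 5 + d 6 * v 6 + a6 * v 7,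
        a6 * v 6 + d 7 * v 7 + a7 * v 8, a7 * v 7 + d 8 * v 8 + a8 * v 9,
        b * v 4 + a8 * v 8 + d 9 * v 9] := by
    refine ⟨A 0 1, A 1 2, A 2 3, A 3 4, A 4 5, A 5 6, A 6 7, A 7 8, A 8 9, A 4 9, fun i => A i i,
      nz _ _ (by decide), nz _ _ (by decide), nz _ _ (by decide), nz _ _ (by decide),
      nz _ _ (by decide), nz _ _ (by decide), nz _ _ (by decide), nz _ _ (by decide),
      nz _ _ (by decide), nz _ _ (by decide), fun v => ?_⟩
    ext i
    fin_cases i <;>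
      simp (disch := decide) [Matrix.mulVec, dotProduct, Fin.sum_univ_succ, z, sA 0 1, sA 1 2,
        sA 2 3, sA 3 4, sA 4 5, sA 5 6, sA 6 7, sA 7 8, sA 8 9, sA 4 9, add_assoc]
  have c : ∀ i j, (A *ᵥ X j) i = (A *ᵥ X i) j := fun i j => by
    have := congrFun (congrFun comm i) j
    simp only [Matrix.mul_apply] at this
    simp only [Matrix.mulVec, dotProduct, sX j]
    rw [Finset.sum_congr rfl fun k _ => by rw [sX k j], this]
    exact Finset.sum_congr rfl fun k _ => by rw [mul_comm, sA, sX]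
  have e : ∀ i j : Fin 10, (i : ℕ) + 1 = j → X i j = 0 ∧ X j i = 0 := fun i j h => by
    have : T64.Adj i j := by
      simp only [T64, SimpleGraph.fromRel_adj, ne_eq, Fin.ext_iff]; omega
    exact ⟨xe _ _ this, xe _ _ this.symm⟩
  have e49 := xe 4 9 (by decide)
  obtain ⟨e01, e10⟩ := e 0 1 rfl
  obtain ⟨e12, e21⟩ := e 1 2 rfl
  obtain ⟨e23, e32⟩ := e 2 3 rfl
  obtain ⟨e34, e43⟩ := e 3 4 rfl
  obtain ⟨e45, e54⟩ := e 4 5 rfl
  obtain ⟨e56, e65⟩ := e 5 6 rfl
  obtain ⟨e67, e76⟩ := e 6 7 rfl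
  obtain ⟨e78, e87⟩ := e 7 8 rfl
  obtain ⟨e89, e98⟩ := e 8 9 rfl
  have e02 : X 0 2 = 0 := by have := c 1 0; simpa [mv, xd, e01, e10, e12, e21, e23, e32, e34, e43, n1, n2, n3] using this
  have e13 : X 1 3 = 0 := by have := c 2 1; simpa [mv, xd, e02, sX 0 2, e01, e10, e12, e21, e23, e32, e34, e43, n1, n2, n3] using this
  have e24 : X 2 4 = 0 := by have := c 3 2; simpa [mv, xd, e13, sX 1 3, e01, e10, e12, e21, e23, e32, e34, e43, n1, n2, n3] using this
  have e03 : X 0 3 = 0 := by have := c 2 0; simpa [mv, xd, e02, sX 0 2, e01, e10, e12, e21, e23, e32, e34, e43, n1, n2, n3] using this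
  have e14 : X 1 4 = 0 := by have := c 3 1; simpa [mv, xd, e03, e13, sX 0 3, sX 1 3, e01, e10, e12, e21, e23, e32, e34, e43, n1, n2, n3] using this
  have e04 : X 0 4 = 0 := by have := c 3 0; simpa [mv, xd, e02, e03, e13, sX 0 3, sX 1 3, e01, e10, e12, e21, e23, e32, e34, e43, n1, n2, n3] using this
  have c5 : ∀ i : Fin 10, (i : ℕ) ≤ 4 → i = 0 ∨ i = 1 ∨ i = 2 ∨ i = 3 ∨ i = 4 := by decide
  have lo : ∀ i j : Fin 10, (i : ℕ) ≤ 4 → (j : ℕ) ≤ 4 → X i j = 0 := by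
    intro i j hi hj
    rcases c5 i hi with rfl | rfl | rfl | rfl | rfl <;>
      rcases c5 j hj with rfl | rfl | rfl | rfl | rfl <;>
      simp only [xd, e01, e10, e12, e21, e23, e32, e34, e43, e02, e13, e24, e03, e14, e04, sX 0 2,
        sX 1 3, sX 2 4, sX 0 3, sX 1 4, sX 0 4]
  have lo5 : ∀ i : Fin 10, (i : ℕ) ≤ 4 → a4 * X i 5 + b * X i 9 = 0 := by
    intro i hi
    have := c 4 i
    rcases c5 i hi with rfl | rfl | rfl | rfl | rfl
    any_goals simpa (disch := decide) [mv, lo] using this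
    simp [e45, e49]
  set v : ℕ → Fin 10 → ℝ := fun k j => (A ^ k) j 0 with hv
  have vs : ∀ k, v (k + 1) = A *ᵥ v k := fun k => by
    ext j; simp only [hv, pow_succ', Matrix.mul_apply, Matrix.mulVec, dotProduct]
  have sup : ∀ k : ℕ, k ≤ 4 → ∀ j : Fin 10, k < (j : ℕ) → v k j = 0 := by
    intro k
    induction k with
    | zero => intro _ j hj; exact Matrix.one_apply_ne (by rintro rfl; simp at hj)
    | succ k ih =>
      intro hk j hj
      have := ih (by omega)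
      rw [vs, mv]
      obtain rfl | rfl | rfl | rfl : k = 0 ∨ k = 1 ∨ k = 2 ∨ k = 3 := by omega
      all_goals fin_cases j <;> first | (simp (disch := decide) [this]; done) | simp at hj
  have xv : ∀ k ≤ 5, ∀ i : Fin 10, (i : ℕ) ≤ 4 → (X *ᵥ v k) i = 0 := by
    intro k hk i hi
    rcases hk.lt_or_eq with h | rfl
    · simp only [Matrix.mulVec, dotProduct]
      refine Finset.sum_eq_zero fun j _ => ?_
      by_cases q : (j : ℕ) ≤ 4
      · rw [lo i j hi q, zero_mul]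
      · rw [sup k (by omega) j (by omega), mul_zero]
    · have := sup 4 le_rfl
      have l := fun j => lo i j hi
      rw [vs, mv]
      simp (disch := decide) [Matrix.mulVec, dotProduct, Fin.sum_univ_succ, this, l]
      linear_combination v 4 4 * lo5 i hi
  have cm : Commute A X := comm
  have mu : ∀ k ≤ 9, (X * A ^ k) 0 0 = 0 := by
    intro k hk
    obtain ⟨i, j, hi, hj, rfl⟩ : ∃ i j, i ≤ 4 ∧ j ≤ 5 ∧ k = i + j :=
      ⟨k / 2, k - k / 2, by omega, by omega, by omega⟩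
    rw [pow_add, ← mul_assoc, ← (cm.pow_left i).eq, mul_assoc, Matrix.mul_apply]
    refine Finset.sum_eq_zero fun a _ => ?_
    by_cases q : (a : ℕ) ≤ 4
    · exact mul_eq_zero_of_right _ (xv j hj a q)
    · rw [(hs.pow i).apply a 0]
      exact mul_eq_zero_of_left (sup i hi a (by omega)) _
  set P : (Fin 10 → ℝ) → Prop := fun z => ∀ k, (A ^ k *ᵥ z) 0 = 0 with hP
  have P0 : P (X 0) := fun k => by
    rw [← allpow A X mu k, ← (cm.pow_left k).eq, Matrix.mul_apply]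
    simp only [Matrix.mulVec, dotProduct, fun a => sX a 0]
  have PA : ∀ z, P z → P (A *ᵥ z) := fun z h k => by
    rw [Matrix.mulVec_mulVec, ← pow_succ]; exact h _
  have PL : ∀ (a r t : ℝ) y z w, a ≠ 0 → P z → P w → A *ᵥ z = t • w + r • z + a • y → P y := by
    intro a r t y z w ha hz hw h k
    have := PA z hz k
    simpa [h, Matrix.mulVec_add, Matrix.mulVec_smul, hz k, hw k, ha] using this
  have P1 : P (X 1) := PL a0 (d 0) 0 _ _ _ n0 P0 P0 (by ext i; rw [c, mv]; simp [sX i])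
  have P2 : P (X 2) := PL a1 (d 1) a0 _ _ _ n1 P1 P0 (by ext i; rw [c, mv]; simp [sX i])
  have P3 : P (X 3) := PL a2 (d 2) a1 _ _ _ n2 P2 P1 (by ext i; rw [c, mv]; simp [sX i])
  have P4 : P (X 4) := PL a3 (d 3) a2 _ _ _ n3 P3 P2 (by ext i; rw [c, mv]; simp [sX i])
  have p0 : ∀ z, P z → z 0 = 0 := fun z h => by simpa using h 0
  have p1 : ∀ z, P z → z 1 = 0 := fun z h => by simpa [mv, p0 z h, n0] using p0 _ (PA z h)
  have p2 : ∀ z, P z → z 2 = 0 := fun z h => by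
    simpa [mv, p0 z h, p1 z h, n1] using p1 _ (PA z h)
  have p3 : ∀ z, P z → z 3 = 0 := fun z h => by
    simpa [mv, p2 z h, p1 z h, n2] using p2 _ (PA z h)
  have p4 : ∀ z, P z → z 4 = 0 := fun z h => by
    simpa [mv, p2 z h, p3 z h, n3] using p3 _ (PA z h)
  have p5 : ∀ z, P z → a4 * z 5 + b * z 9 = 0 := fun z h => by
    simpa [mv, p4 z h, p3 z h] using p4 _ (PA z h)
  have q1 := p5 _ (PA _ P4)
  have q2 := p5 _ (PA _ (PA _ P4))
  have c56 := c 5 6
  have c67 := c 6 7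
  have c78 := c 7 8
  have c89 := c 8 9
  have c57 := c 5 7
  have c68 := c 6 8
  have c79 := c 7 9
  have c58 := c 5 8
  simp [mv, xd, e45, e49, e56, e65, e67, e76, e78, e87, e89, e98, e43, sX 4 6, sX 4 7, sX 4 8,
    sX 5 7, sX 6 8, sX 7 9, sX 5 8, sX 6 9, sX 5 9, sX 4 9, e54, -mul_eq_mul_left_iff,
    -mul_eq_mul_right_iff] at q1 q2 c56 c67 c78 c89 c57 c68 c79 c58
  have f1 : X 5 7 = 0 := by
    have : (2 * a5 * a6) * X 5 7 = 0 := by
      linear_combination q1 - a5 * c56 + a6 * c67 + a7 * c78 + a8 * c89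
    simpa [n5, n6] using this
  have f2 : X 4 6 = 0 := by simpa [f1, n4] using c56
  have f3 : X 6 8 = 0 := by simpa [f1, n7] using c67
  have f4 : X 7 9 = 0 := by simpa [f3, n8] using c78
  have f5 : X 4 8 = 0 := by simpa [f4, nb] using c89
  simp only [f1, f2, f3, f4, f5, mul_zero, add_zero, zero_add] at q2 c57 c68 c79 c58
  have f6 : X 4 7 = 0 := by
    have : (2 * a4 * a5 * a6) * X 4 7 = 0 := by
      linear_combination q2 + a5 * a6 * c57 + a6 * a7 * c68 + a7 * a8 * c79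
    simpa [n4, n5, n6] using this
  have f7 : X 5 8 = 0 := by simpa [f6, n7] using c57
  have f8 : X 6 9 = 0 := by simpa [f7, n8] using c68
  have f9 : X 5 9 = 0 := by simpa [f7, n8] using c58
  have hi : ∀ i j : Fin 10, 4 ≤ (i : ℕ) → 4 ≤ (j : ℕ) → X i j = 0 := by
    have c6 : ∀ i : Fin 10, 4 ≤ (i : ℕ) → i = 4 ∨ i = 5 ∨ i = 6 ∨ i = 7 ∨ i = 8 ∨ i = 9 := by
      decide
    intro i j hi hj
    rcases c6 i hi with rfl | rfl | rfl | rfl | rfl | rfl <;>
      rcases c6 j hj with rfl | rfl | rfl | rfl | rfl | rfl <;>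
      simp only [xd, e45, e54, e56, e65, e67, e76, e78, e87, e89, e98, e49, f1, f2, f3, f4, f5, f6,
        f7, f8, f9, sX 4 9, sX 5 7, sX 4 6, sX 6 8, sX 7 9, sX 4 8, sX 4 7, sX 5 8, sX 6 9, sX 5 9]
  have r4 : X 4 = 0 := funext fun i => by
    by_cases q : (i : ℕ) ≤ 4
    · exact lo _ _ (by decide) q
    · exact hi _ _ (by decide) (by omega)
  have r3 : X 3 = 0 := funext fun i => by
    by_cases q : (i : ℕ) ≤ 4
    · exact lo _ _ (by decide) q
    · have := c 4 i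
      have t := fun j => hi i j (by omega)
      rw [r4, Matrix.mulVec_zero, mv] at this
      simpa (disch := decide) [t, n3, sX 3 i] using this
  have r2 : X 2 = 0 := funext fun i => by
    have := c 3 i
    rw [r3, Matrix.mulVec_zero, mv] at this
    simpa [n2, sX 2 i, sX 3 i, sX 4 i, r3, r4] using this
  have r1 : X 1 = 0 := funext fun i => by
    have := c 2 i
    rw [r2, Matrix.mulVec_zero, mv] at this
    simpa [n1, sX 2 i, sX 3 i, sX 1 i, r3, r2] using this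
  have r0 : X 0 = 0 := funext fun i => by
    have := c 1 i
    rw [r1, Matrix.mulVec_zero, mv] at this
    simpa [n0, sX 2 i, sX 0 i, sX 1 i, r1, r2] using this
  have r : ∀ i : Fin 10, (i : ℕ) ≤ 4 → X i = 0 := fun i h => by
    rcases c5 i h with rfl | rfl | rfl | rfl | rfl <;> assumption
  ext i j
  by_cases q : (i : ℕ) ≤ 4
  · exact congrFun (r i q) j
  by_cases q' : (j : ℕ) ≤ 4
  · rw [sX]; exact congrFun (r j q') i
  · exact hi i j (by omega) (by omega)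

theorem result : T64.Connected ∧ T64.edgeSet.ncard = 10 ∧ ∀ A, InS T64 A → SSP A := by
  refine ⟨by decide +kernel, ?_, ssp⟩
  rw [← SimpleGraph.coe_edgeFinset, Set.ncard_coe_finset]
  decide +kernel

end Pool.Agent.Results.MP_34deb4_co.Q1
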